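import Pool.Agent.L7h62.SQ.Stm2

/-! Project SQ, second stage, part STEP: a quadratic step. -/

set_option autoImplicit false
set_option linter.unusedSectionVars false

namespace Pool.Agent.L7h69.SQ

open Module NumberField IsDedekindDomain
open Pool.Agent.TeamU (Over Unr over_unique b2_exists_over b2_exists_under exists_conj)
open Pool.Agent.L7h62.SQ

section val

variable {F : Type} [Field F] [NumberField F]

/-- the exponent of the valuation -/
noncomputable def od (v : HeightOneSpectrum (𝓞 F)) (x : F) : ℤ := WithZero.log (v.valuation F x)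

lemma vne {v : HeightOneSpectrum (𝓞 F)} {x : F} (hx : x ≠ 0) : v.valuation F x ≠ 0 :=
  (Valuation.ne_zero_iff _).2 hx

lemma od_mul (v : HeightOneSpectrum (𝓞 F)) {x y : F} (hx : x ≠ 0) (hy : y ≠ 0) :
    od v (x * y) = od v x + od v y := by
  unfold od
  rw [map_mul, WithZero.log_mul (vne hx) (vne hy)]

lemma od_sq (v : HeightOneSpectrum (𝓞 F)) (x : F) : od v (x ^ 2) = 2 * od v x := by
  unfold od
  rw [map_pow, WithZero.log_pow, nsmul_eq_mul]
  norm_num

lemma evenAt_iff {v : HeightOneSpectrum (𝓞 F)} {x : F} (hx : x ≠ 0) :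
    EvenAt v x ↔ Even (od v x) := by
  constructor
  · rintro ⟨n, hn⟩
    unfold od
    rw [hn, WithZero.log_exp]
    exact even_two_mul n
  · rintro ⟨n, hn⟩
    refine ⟨n, ?_⟩
    rw [← WithZero.exp_log (vne (v := v) hx)]
    unfold od at hn
    rw [hn]
    congr 1
    ring

lemma od_int (v : HeightOneSpectrum (𝓞 F)) {x : 𝓞 F} (hx : x ≠ 0) (n : ℕ) :
    od v (algebraMap (𝓞 F) F x) ≤ -(n : ℤ) ↔ x ∈ v.asIdeal ^ n := by
  have hx' : algebraMap (𝓞 F) F x ≠ 0 := by
    intro h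
    apply hx
    exact (FaithfulSMul.algebraMap_injective (𝓞 F) F) (by rw [h, map_zero])
  unfold od
  rw [WithZero.log_le_iff_le_exp (vne hx'), HeightOneSpectrum.valuation_of_algebraMap,
    HeightOneSpectrum.intValuation_le_pow_iff_mem]

lemma alg_ne {x : 𝓞 F} (hx : x ≠ 0) : algebraMap (𝓞 F) F x ≠ 0 := by
  intro h
  apply hx
  exact (FaithfulSMul.algebraMap_injective (𝓞 F) F) (by rw [h, map_zero])

lemma od_le (v : HeightOneSpectrum (𝓞 F)) {x : 𝓞 F} (hx : x ≠ 0) :
    od v (algebraMap (𝓞 F) F x) ≤ 0 := by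
  have := (od_int v hx 0).2 (by simp)
  simpa using this

lemma od_zero (v : HeightOneSpectrum (𝓞 F)) {x : 𝓞 F} (hx : x ≠ 0) (h : x ∉ v.asIdeal) :
    od v (algebraMap (𝓞 F) F x) = 0 := by
  have h1 := od_le v hx
  have h2 : ¬ od v (algebraMap (𝓞 F) F x) ≤ -1 := by
    intro h3
    apply h
    have := (od_int v hx 1).1 (by simpa using h3)
    simpa using this
  omega

lemma eq_of_le {P Q : HeightOneSpectrum (𝓞 F)} (h : P.asIdeal ≤ Q.asIdeal) : P = Q := by
  apply HeightOneSpectrum.ext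
  exact P.isMaximal.eq_of_le Q.isPrime.ne_top h

/-- an element with prescribed valuations at two primes -/
lemma exA {P Q : HeightOneSpectrum (𝓞 F)} (h : P ≠ Q) :
    ∃ x : F, x ≠ 0 ∧ od P x = -1 ∧ od Q x = 0 := by
  have h1 : ¬ ((P.asIdeal : Set (𝓞 F)) ⊆ (P.asIdeal ^ 2 : Ideal (𝓞 F)) ∪ Q.asIdeal) := by
    rw [Ideal.subset_union]
    rintro (h2 | h2)
    · obtain ⟨x, hx1, hx2⟩ := Ideal.exists_mem_pow_notMem_pow_succ P.asIdeal P.ne_bot
        P.isPrime.ne_top 1
      rw [pow_one] at hx1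
      exact hx2 (h2 hx1)
    · exact h (eq_of_le h2)
  obtain ⟨x, hx1, hx2⟩ := Set.not_subset.1 h1
  have hx3 : x ∉ P.asIdeal ^ 2 := fun h => hx2 (Or.inl h)
  have hx4 : x ∉ Q.asIdeal := fun h => hx2 (Or.inr h)
  have hx0 : x ≠ 0 := by
    rintro rfl
    exact hx4 (zero_mem _)
  refine ⟨algebraMap (𝓞 F) F x, alg_ne hx0, ?_, od_zero Q hx0 hx4⟩
  have h2 := (od_int P hx0 1).2 (by simpa using hx1)
  have h3 : ¬ od P (algebraMap (𝓞 F) F x) ≤ -2 := by
    intro h4
    apply hx3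
    exact (od_int P hx0 2).1 (by simpa using h4)
  push_cast at h2
  omega

lemma exC {Q P P' : HeightOneSpectrum (𝓞 F)} (h1 : Q ≠ P) (h2 : Q ≠ P') :
    ∃ x : 𝓞 F, x ≠ 0 ∧ od Q (algebraMap (𝓞 F) F x) ≤ -1 ∧ od P (algebraMap (𝓞 F) F x) = 0 ∧
      od P' (algebraMap (𝓞 F) F x) = 0 := by
  have h3 : ¬ ((Q.asIdeal : Set (𝓞 F)) ⊆ P.asIdeal ∪ P'.asIdeal) := by
    rw [Ideal.subset_union]
    rintro (h4 | h4)
    · exact h1 (eq_of_le h4)
    · exact h2 (eq_of_le h4)
  obtain ⟨x, hx1, hx2⟩ := Set.not_subset.1 h3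
  have hx3 : x ∉ P.asIdeal := fun h => hx2 (Or.inl h)
  have hx4 : x ∉ P'.asIdeal := fun h => hx2 (Or.inr h)
  have hx0 : x ≠ 0 := by
    rintro rfl
    exact hx3 (zero_mem _)
  refine ⟨x, hx0, ?_, od_zero P hx0 hx3, od_zero P' hx0 hx4⟩
  have := (od_int Q hx0 1).2 (by simpa using hx1)
  simpa using this

end val

theorem s_STEP (h1 : S_VAL) (h2 : S_POS) : S_STEP := by
  intro F L _ _ _ _ _ hfin hL hS v₀ hunr
  obtain ⟨τ, hττ, hfix, hnorm, hall⟩ := exists_conj (M := F) (E := L) hfin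
  have hV := (h1 F L).1
  have hP := (h2 F L hL).2
  -- a generator
  have hτ1 : ∃ x, τ x ≠ x := by
    by_contra h
    push Not at h
    have h3 : Function.Surjective (algebraMap F L) := fun x => (hfix x).1 (h x)
    have h4 : finrank F L = 1 := by
      have e := (LinearEquiv.ofBijective (Algebra.linearMap F L)
        ⟨(algebraMap F L).injective, h3⟩).finrank_eq
      rw [finrank_self] at e
      exact e.symm
    omega
  obtain ⟨x₁, hx₁⟩ := hτ1
  set θ := x₁ - τ x₁ with hθ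
  have hθ0 : θ ≠ 0 := sub_ne_zero.2 (Ne.symm hx₁)
  have hτθ : τ θ = -θ := by
    rw [hθ, map_sub, hττ]
    ring
  obtain ⟨δ, hδ⟩ : ∃ δ : F, algebraMap F L δ = θ ^ 2 := by
    have := (hfix (θ ^ 2)).1 (by rw [map_pow, hτθ]; ring)
    exact this
  have inj := (algebraMap F L).injective
  have hδ0 : δ ≠ 0 := by
    rintro rfl
    rw [map_zero] at hδ
    exact pow_ne_zero 2 hθ0 hδ.symm
  have two0 : (2 : L) ≠ 0 := two_ne_zero
  have aL : ∀ {a : F}, a ≠ 0 → algebraMap F L a ≠ 0 := fun {a} ha h =>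
    ha (inj (by rw [h, map_zero]))
  -- the primes
  have ee : ∀ (P : HeightOneSpectrum (𝓞 L)) (v : HeightOneSpectrum (𝓞 F)), Over P v →
      ∃ e : ℕ, 1 ≤ e ∧ ∀ a : F, od P (algebraMap F L a) = e * od v a := by
    intro P v hPv
    obtain ⟨⟨e, he, h⟩, _⟩ := hV P v hPv
    refine ⟨e, he, fun a => ?_⟩
    unfold od
    rw [h, WithZero.log_pow, nsmul_eq_mul]
  have cj : ∀ (P : HeightOneSpectrum (𝓞 L)) (v : HeightOneSpectrum (𝓞 F)), Over P v →
      ∃ P' : HeightOneSpectrum (𝓞 L), Over P' v ∧ ∀ x : L, od P' x = od P (τ x) := by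
    intro P v hPv
    obtain ⟨P', h3, h4⟩ := (hV P v hPv).2 τ
    refine ⟨P', h3, fun x => ?_⟩
    unfold od
    rw [h4]
  have un : ∀ v : HeightOneSpectrum (𝓞 F), v ≠ v₀ → ∃ P : HeightOneSpectrum (𝓞 L), Over P v ∧
      ∀ a : F, od P (algebraMap F L a) = od v a := by
    intro v hv
    obtain ⟨P, hPv⟩ := b2_exists_over (E := L) v
    refine ⟨P, hPv, fun a => ?_⟩
    rcases hunr P with h | h
    · exact absurd (over_unique hPv h) hv
    · unfold od
      rw [h v hPv a]
  -- `δ` is odd at `v₀`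
  have hδpos : ∀ φ : F →+* ℝ, 0 < φ δ := by
    intro φ
    obtain ⟨ψ, hψ⟩ := hP φ
    rw [← hψ, hδ, map_pow]
    have : ψ θ ≠ 0 := by
      intro h
      exact hθ0 (ψ.injective (by rw [h, map_zero]))
    positivity
  have hδev : ∀ v : HeightOneSpectrum (𝓞 F), v ≠ v₀ → Even (od v δ) := by
    intro v hv
    obtain ⟨P, _, hP2⟩ := un v hv
    rw [← hP2, hδ, od_sq]
    exact even_two_mul _
  have hodd : ¬ Even (od v₀ δ) := by
    intro h
    obtain ⟨y, hy⟩ := hS δ hδ0 hδpos (fun v => by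
      rw [evenAt_iff hδ0]
      by_cases hv : v = v₀
      · rw [hv]
        exact h
      · exact hδev v hv)
    have h3 : (algebraMap F L y) ^ 2 = θ ^ 2 := by rw [← map_pow, hy, hδ]
    have h4 : τ θ = θ := by
      rcases sq_eq_sq_iff_eq_or_eq_neg.1 h3 with h5 | h5
      · rw [← h5]
        exact τ.commutes y
      · have h6 : θ = -algebraMap F L y := by rw [h5, neg_neg]
        rw [h6, map_neg, τ.commutes]
    rw [hτθ] at h4
    have h5 : (2 : L) * θ = 0 := by linear_combination -h4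
    rcases mul_eq_zero.1 h5 with h6 | h6
    · exact two0 h6
    · exact hθ0 h6
  -- the ramification index is even
  have heven : ∀ (P : HeightOneSpectrum (𝓞 L)), Over P v₀ → ∀ e : ℕ,
      (∀ a : F, od P (algebraMap F L a) = e * od v₀ a) → Even (e : ℤ) := by
    intro P _ e he
    have h3 := he δ
    rw [hδ, od_sq] at h3
    have h4 : Even ((e : ℤ) * od v₀ δ) := by
      rw [← h3]
      exact even_two_mul _
    rcases Int.even_mul.1 h4 with h5 | h5
    · exact h5
    · exact absurd h5 hodd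
  -- the norm
  have nrm : ∀ x : L, x ≠ 0 → ∃ n : F, n ≠ 0 ∧ algebraMap F L n = x * τ x := by
    intro x hx
    refine ⟨Algebra.norm F x, ?_, hnorm x⟩
    intro h
    have h3 := hnorm x
    rw [h, map_zero] at h3
    rcases mul_eq_zero.1 h3.symm with h4 | h4
    · exact hx h4
    · exact hx (τ.injective (by rw [h4, map_zero]))
  have τne : ∀ {x : L}, x ≠ 0 → τ x ≠ 0 := fun {x} hx h => hx (τ.injective (by rw [h, map_zero]))
  have huniq : ∀ P Q : HeightOneSpectrum (𝓞 L), Over P v₀ → Over Q v₀ → P = Q := by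
    intro P Q hPv hQv
    by_contra hne
    obtain ⟨P', hP'v, hP'⟩ := cj P v₀ hPv
    obtain ⟨Q', _, hQ'⟩ := cj Q v₀ hQv
    obtain ⟨e, he1, he⟩ := ee P v₀ hPv
    obtain ⟨e', he1', he'⟩ := ee Q v₀ hQv
    have hQP' : Q = P' := by
      by_contra hne2
      obtain ⟨x, hx0, hx1, hx2, hx3⟩ := exC (Ne.symm hne) hne2
      have hx0' := alg_ne hx0
      obtain ⟨n, hn0, hn⟩ := nrm _ hx0'
      have h3 := he n
      have h4 := he' n
      rw [hn, od_mul _ hx0' (τne hx0')] at h3 h4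
      rw [← hP', hx2, hx3] at h3
      rw [← hQ'] at h4
      have h5 := od_le Q' hx0
      have h6 : (e : ℤ) * od v₀ n = 0 := by omega
      rcases mul_eq_zero.1 h6 with h7 | h7
      · omega
      · rw [h7, mul_zero] at h4
        omega
    obtain ⟨x, hx0, hx1, hx2⟩ := exA hne
    obtain ⟨n, hn0, hn⟩ := nrm _ hx0
    have h3 := he n
    rw [hn, od_mul _ hx0 (τne hx0), ← hP', ← hQP', hx1, hx2] at h3
    have h4 : Even ((e : ℤ) * od v₀ n) := (heven P hPv e he).mul_right _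
    rw [← h3] at h4
    revert h4
    decide
  refine ⟨?_, huniq⟩
  -- the ramification index is two
  have he2 : ∀ (P : HeightOneSpectrum (𝓞 L)), Over P v₀ →
      ∀ a : F, od P (algebraMap F L a) = 2 * od v₀ a := by
    intro P hPv
    obtain ⟨P', hP'v, hP'⟩ := cj P v₀ hPv
    obtain ⟨e, he1, he⟩ := ee P v₀ hPv
    have hPP := huniq P P' hPv hP'v
    obtain ⟨x, hx⟩ := HeightOneSpectrum.valuation_exists_uniformizer L P
    have hx1 : od P x = -1 := by
      unfold od
      rw [hx, WithZero.log_exp]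
    have hx0 : x ≠ 0 := by
      rintro rfl
      rw [map_zero] at hx
      exact WithZero.exp_ne_zero hx.symm
    obtain ⟨n, hn0, hn⟩ := nrm _ hx0
    have h3 := he n
    rw [hn, od_mul _ hx0 (τne hx0), ← hP', ← hPP, hx1] at h3
    obtain ⟨r, hr⟩ := heven P hPv e he
    have h4 : (e : ℤ) = 2 := by
      have h5 : r * od v₀ n = -1 := by
        rw [hr] at h3
        linarith
      have h6 : r ∣ 1 := ⟨-od v₀ n, by linarith⟩
      have h7 : r = 1 ∨ r = -1 := Int.isUnit_iff.1 (isUnit_of_dvd_one h6)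
      rcases h7 with h8 | h8 <;> omega
    intro a
    rw [he, h4]
  intro b hb0 hbpos hbev
  obtain ⟨n, hn0, hn⟩ := nrm b hb0
  have hbe : ∀ P : HeightOneSpectrum (𝓞 L), Even (od P b) := fun P => (evenAt_iff hb0).1 (hbev P)
  have hnev : ∀ v : HeightOneSpectrum (𝓞 F), EvenAt v n := by
    intro v
    rw [evenAt_iff hn0]
    by_cases hv : v = v₀
    · obtain ⟨P, hPv⟩ := b2_exists_over (E := L) v₀
      obtain ⟨P', hP'v, hP'⟩ := cj P v₀ hPv
      have h3 := he2 P hPv n
      rw [hn, od_mul _ hb0 (τne hb0), ← hP', ← huniq P P' hPv hP'v] at h3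
      obtain ⟨i, hi⟩ := hbe P
      rw [hv]
      exact ⟨i, by omega⟩
    · obtain ⟨P, hPv, hP2⟩ := un v hv
      obtain ⟨P', hP'v, hP'⟩ := cj P v hPv
      rw [← hP2, hn, od_mul _ hb0 (τne hb0), ← hP']
      exact (hbe P).add (hbe P')
  have hnpos : ∀ φ : F →+* ℝ, 0 < φ n := by
    intro φ
    obtain ⟨ψ, hψ⟩ := hP φ
    rw [← hψ, hn, map_mul]
    exact mul_pos (hbpos ψ) (hbpos (ψ.comp (τ : L →+* L)))
  obtain ⟨η₀, hη₀⟩ := hS n hn0 hnpos hnev
  obtain ⟨η, hη, hη1⟩ : ∃ η : F, η ^ 2 = n ∧ b + algebraMap F L η ≠ 0 := by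
    by_cases h : b + algebraMap F L η₀ = 0
    · refine ⟨-η₀, by rw [neg_sq, hη₀], ?_⟩
      intro h3
      rw [map_neg] at h3
      have h4 : 2 * b = 0 := by linear_combination h + h3
      rcases mul_eq_zero.1 h4 with h5 | h5
      · exact two0 h5
      · exact hb0 h5
    · exact ⟨η₀, hη₀, h⟩
  set H := algebraMap F L η with hH
  have hH2 : H ^ 2 = b * τ b := by rw [hH, ← map_pow, hη, hn]
  obtain ⟨a, ha⟩ : ∃ a : F, algebraMap F L a = b + τ b + 2 * H := by
    have := (hfix (b + τ b + 2 * H)).1 (by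
      rw [map_add, map_add, map_mul, hττ, hH, τ.commutes, map_ofNat]
      ring)
    exact this
  have hab : algebraMap F L a * b = (b + H) ^ 2 := by
    rw [ha]
    linear_combination -hH2
  have ha0 : a ≠ 0 := by
    rintro rfl
    rw [map_zero, zero_mul] at hab
    exact pow_ne_zero 2 hη1 hab.symm
  have hapos : ∀ φ : F →+* ℝ, 0 < φ a := by
    intro φ
    obtain ⟨ψ, hψ⟩ := hP φ
    have h3 := congrArg ψ hab
    rw [map_mul, map_pow, hψ] at h3
    have h4 : ψ (b + H) ≠ 0 := by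
      intro h
      exact hη1 (ψ.injective (by rw [h, map_zero]))
    have h5 : 0 < φ a * ψ b := by
      rw [h3]
      positivity
    exact pos_of_mul_pos_left h5 (hbpos ψ).le
  have haev : ∀ v : HeightOneSpectrum (𝓞 F), v ≠ v₀ → Even (od v a) := by
    intro v hv
    obtain ⟨P, _, hP2⟩ := un v hv
    rw [← hP2]
    have h3 := congrArg (od P) hab
    rw [od_mul _ (aL ha0) hb0, od_sq] at h3
    obtain ⟨i, hi⟩ := hbe P
    exact ⟨od P (b + H) - i, by omega⟩
  by_cases hcase : Even (od v₀ a)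
  · obtain ⟨y, hy⟩ := hS a ha0 hapos (fun v => by
      rw [evenAt_iff ha0]
      by_cases hv : v = v₀
      · rw [hv]
        exact hcase
      · exact haev v hv)
    have hy0 : y ≠ 0 := by
      rintro rfl
      apply ha0
      rw [← hy]
      ring
    refine ⟨(b + H) / algebraMap F L y, ?_⟩
    rw [div_pow, ← hab, ← map_pow, hy, mul_div_cancel_left₀ _ (aL ha0)]
  · obtain ⟨y, hy⟩ := hS (a * δ) (mul_ne_zero ha0 hδ0)
      (fun φ => by rw [map_mul]; exact mul_pos (hapos φ) (hδpos φ)) (fun v => by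
      rw [evenAt_iff (mul_ne_zero ha0 hδ0), od_mul _ ha0 hδ0]
      by_cases hv : v = v₀
      · rw [hv]
        exact (Int.not_even_iff_odd.1 hcase).add_odd (Int.not_even_iff_odd.1 hodd)
      · exact (haev v hv).add (hδev v hv))
    have hy0 : y ≠ 0 := by
      rintro rfl
      apply mul_ne_zero ha0 hδ0
      rw [← hy]
      ring
    refine ⟨(b + H) * θ / algebraMap F L y, ?_⟩
    rw [div_pow, mul_pow, ← hab, ← map_pow, hy, ← hδ, map_mul]
    field_simp [aL ha0, aL hδ0]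

end Pool.Agent.L7h69.SQ
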